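import Mathlib

/-! Exponents of unitary local systems on the line minus three points. -/

open Matrix Polynomial

namespace Pool.Agent.Work.MP_5e5ff1_ag.U

/-- There are three unitary matrices `ρ 0, ρ 1, ρ 2` with product one such that the eigenvalues of
`ρ x` are the numbers `exp (2 π i v (x, j))`. -/
def UnitaryExponents {r : ℕ} (v : Fin 3 × Fin r → ℝ) : Prop :=
  ∃ ρ : Fin 3 → Matrix.unitaryGroup (Fin r) ℂ, ρ 0 * ρ 1 * ρ 2 = 1 ∧
    ∀ x, (ρ x : Matrix (Fin r) (Fin r) ℂ).charpoly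
      = ∏ j, (X - C (Complex.exp (2 * Real.pi * Complex.I * ((v (x, j) : ℝ) : ℂ))))

end Pool.Agent.Work.MP_5e5ff1_ag.U
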