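import Mathlib
import Pool.Agent.Work.MP_5e5ff1_ag.Bd.B14

/-! The uniform structure theorem. -/

open Matrix Polynomial Filter Topology NumberField

namespace Pool.Agent.Work.MP_5e5ff1_ag.U

open Pool.Agent.Work.MP_5e5ff1_ag.T Pool.Agent.Work.MP_5e5ff1_ag.S

/-- the uniform structure theorem -/
theorem uni_structure (r : ℕ) (hr : 0 < r) :
    ∃ (L : Finset (Finset ((Fin 3 × Fin r → ℤ) × ℚ))) (B : ℕ),
      (∀ T ∈ L, (∃ w : Fin 3 × Fin r → ℝ, Solves T w) ∧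
        (∀ w : Fin 3 × Fin r → ℝ, Solves T w → UnitaryExponents w ∧
          SemistableWeights w ∧ SemistableWeights (fun i => -w i) ∧ Interlacing w) ∧
        r ≤ relRank T ∧
        ∀ a : Fin 3, (∃ e ∈ T, ∃ j j' : Fin r, e.1 (a, j) ≠ e.1 (a, j')) ∨
          ∀ b : Fin 3, a ≠ b → ∀ w : Fin 3 × Fin r → ℝ, Solves T w →
            EvenlySpaced (fun j => w (b, j))) ∧
      (∀ (N : ℕ) (e : Fin 3 × Fin r → ℚ), 0 < N → (∀ i, ∃ s : ℤ, e i = s / N) →
        ((∃ T ∈ L, Solves T (fun i => ((e i : ℚ) : ℝ))) ↔ ∀ u : ℤ, IsCoprime u (N : ℤ) →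
          UnitaryExponents (fun i => (u : ℝ) * ((e i : ℚ) : ℝ)) ∧
            SemistableWeights (fun i => (u : ℝ) * ((e i : ℚ) : ℝ)) ∧
            SemistableWeights (fun i => -((u : ℝ) * ((e i : ℚ) : ℝ))))) ∧
      ∀ (K : Type) [Field K] [NumberField K] (n N : ℕ) (b c : Matrix (Fin r) (Fin r) (𝓞 K))
        (e : Fin 3 × Fin r → ℚ), 0 < n → 0 < N → (∀ i, ∃ s : ℤ, e i = s / N) →
        IsExponents n b c e →
        (∀ (a : ℕ) (u : ℤ), (N : ℤ) ∣ u * a - 1 →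
          {P : Ideal (𝓞 K) | P.IsMaximal ∧ ringChar (𝓞 K ⧸ P) ≡ a [MOD N] ∧
            PCurvZero n b c P}.Infinite →
          UnitaryExponents (fun i => (u : ℝ) * ((e i : ℚ) : ℝ)) ∧
            SemistableWeights (fun i => (u : ℝ) * ((e i : ℚ) : ℝ)) ∧
            SemistableWeights (fun i => -((u : ℝ) * ((e i : ℚ) : ℝ))) ∧
            Interlacing (fun i => (u : ℝ) * ((e i : ℚ) : ℝ))) ∧
        ((∃ T ∈ L, Solves T (fun i => ((e i : ℚ) : ℝ))) ∨
          ∃ A : Finset (ZMod N)ˣ, N.totient ≤ B * A.card ∧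
            ∀ P : Ideal (𝓞 K), P.IsMaximal → (n : 𝓞 K) * (N : 𝓞 K) ∉ P →
              (∃ a ∈ A, (a : ZMod N) = (ringChar (𝓞 K ⧸ P) : ZMod N)) →
              (∀ i, (B : ℚ) * |e i| < (ringChar (𝓞 K ⧸ P) : ℚ)) → ¬ PCurvZero n b c P) := by
  classical
  obtain ⟨L, B, hL1, hL2⟩ := torsion_cosets_dens (Reg r) isClosed_reg reg_periodic
  have hint : ∀ T ∈ L, ∀ w : Fin 3 × Fin r → ℝ, Solves T w → Interlacing w :=
    fun T hT w hw => interlacing_of_reg ((hL1 T hT).2 w hw)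
  refine ⟨L, B, fun T hT => ?_, fun N e hN he => (hL2 e N hN he).1, ?_⟩
  · obtain ⟨⟨w0, hw0⟩, hT2⟩ := hL1 T hT
    refine ⟨⟨w0, hw0⟩, fun w hw => ⟨(hT2 w hw).1, (hT2 w hw).2.1, (hT2 w hw).2.2, hint T hT w hw⟩,
      rank_bound hw0 (hint T hT), ?_⟩
    intro a
    by_cases h : ∃ e ∈ T, ∃ j j' : Fin r, e.1 (a, j) ≠ e.1 (a, j')
    · exact Or.inl h
    · right
      push Not at h
      intro b hab w hw
      exact one_point hr (hint T hT) a h hw b hab
  · intro K _ _ n N b c e hn0 hN0 he hexp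
    refine ⟨fun a u hu hinf => ?_, ?_⟩
    · have h1 := reg_of_class hn0 hN0 he hexp hu hinf
      exact ⟨h1.1, h1.2.1, h1.2.2, interlacing_of_reg h1⟩
    · rcases (hL2 e N hN0 he).2 with h | ⟨A, hA1, hA2⟩
      · exact Or.inl h
      · right
        refine ⟨A.image (fun x => x⁻¹), ?_, ?_⟩
        · rwa [Finset.card_image_of_injective _ inv_injective]
        · rintro P hP hnN ⟨a, ha, hap⟩ hbig hcurv
          obtain ⟨x, hx, rfl⟩ := Finset.mem_image.mp ha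
          have hNe : NeZero N := ⟨hN0.ne'⟩
          have hu : (N : ℤ) ∣ (((x : ZMod N).val : ℕ) : ℤ) * (ringChar (𝓞 K ⧸ P) : ℕ) - 1 := by
            rw [← ZMod.intCast_zmod_eq_zero_iff_dvd]
            push_cast
            rw [ZMod.natCast_zmod_val, ← hap, ← Units.val_mul, mul_inv_cancel, Units.val_one,
              sub_self]
          have h1 := reg_of_prime hn0 hN0 he hexp hP hnN hcurv hu
          obtain ⟨j, hj⟩ := hA2 x hx _ h1
          have hp : (0 : ℝ) < (ringChar (𝓞 K ⧸ P) : ℕ) := by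
            exact_mod_cast (prime_ringChar hP).pos
          have h2 : (((x : ZMod N).val : ℝ)) * ((e j : ℚ) : ℝ)
              - (((((x : ZMod N).val : ℕ) : ℤ) : ℝ) * ((e j : ℚ) : ℝ)
                - ((e j : ℚ) : ℝ) / (ringChar (𝓞 K ⧸ P) : ℕ))
              = ((e j : ℚ) : ℝ) / (ringChar (𝓞 K ⧸ P) : ℕ) := by
            push_cast
            ring
          rw [h2, abs_div, abs_of_pos hp, mul_div_assoc', le_div_iff₀ hp, one_mul] at hj
          have h3 : ((B : ℝ) * |((e j : ℚ) : ℝ)|) < ((ringChar (𝓞 K ⧸ P) : ℕ) : ℝ) := by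
            exact_mod_cast hbig j
          linarith

end Pool.Agent.Work.MP_5e5ff1_ag.U
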